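import Pool.Agent.H66.L.T64922ed1.X84.Fm.Defs
import Pool.Agent.H66.L.S8.Y318.MN.Main

/-!
# Definitions: torus actions and diffeomorphisms which do not decrease a function
-/

open scoped Topology ContDiff Manifold
open Set Filter

set_option autoImplicit false
set_option linter.unusedSectionVars false

noncomputable section

namespace Pool.Agent.X84.Tor

open Pool.Agent.X84.Fm.Defs

universe u v

variable {E : Type u} [NormedAddCommGroup E] [NormedSpace ℝ E]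
  {P : Type v} [TopologicalSpace P] [ChartedSpace E P]

/-- `ρ` is a `C^∞` action of the torus `ℝᵏ/ℤᵏ` on `P`. -/
def TorusAction (E : Type u) [NormedAddCommGroup E] [NormedSpace ℝ E] {P : Type v}
    [TopologicalSpace P] [ChartedSpace E P] (k : ℕ) (ρ : (Fin k → ℝ) → P → P) : Prop :=
  ContMDiff (𝓘(ℝ, Fin k → ℝ).prod 𝓘(ℝ, E)) 𝓘(ℝ, E) ∞ (fun p : (Fin k → ℝ) × P => ρ p.1 p.2) ∧
    (∀ x, ρ 0 x = x) ∧ (∀ s t x, ρ (s + t) x = ρ s (ρ t x)) ∧
    ∀ (i : Fin k) (x : P), ρ (Pi.single i 1) x = x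

/-- `x` is a critical point of `h` -/
def Crit (E : Type u) [NormedAddCommGroup E] [NormedSpace ℝ E] {P : Type v}
    [TopologicalSpace P] [ChartedSpace E P] (h : P → ℝ) (x : P) : Prop :=
  mfderiv 𝓘(ℝ, E) 𝓘(ℝ, ℝ) h x = 0

/-- For all but countably many points `x` such that `x` and `G x` are critical points of `h` with
`h (G x) = h x` one has `G x = R x`. -/
def EqOnCrit (E : Type u) [NormedAddCommGroup E] [NormedSpace ℝ E] {P : Type v}
    [TopologicalSpace P] [ChartedSpace E P] (h : P → ℝ) (G R : P → P) : Prop :=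
  {x | (Crit E h x ∧ Crit E h (G x) ∧ h (G x) = h x) ∧ G x ≠ R x}.Countable

/-- `G` does not decrease a `C^∞` function `h`, and there are a torus action `ρ` with `h ∘ ρ_t = h`,
`t`, and a map `Q` of finite order which commutes with `ρ` such that `G = Q ∘ ρ_t` at those critical
points `x` of `h` for which `G x` is critical and `h (G x) = h x`, up to countably many. -/
def TorusMonotone (E : Type u) [NormedAddCommGroup E] [NormedSpace ℝ E] {P : Type v}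
    [TopologicalSpace P] [ChartedSpace E P] (G : P → P) : Prop :=
  ∃ h : P → ℝ, ContMDiff 𝓘(ℝ, E) 𝓘(ℝ, ℝ) ∞ h ∧ (∀ x, h x ≤ h (G x)) ∧
    ∃ (k : ℕ) (ρ : (Fin k → ℝ) → P → P), TorusAction E k ρ ∧ (∀ t x, h (ρ t x) = h x) ∧
      ∃ (Q : P → P) (t : Fin k → ℝ), (∃ m : ℕ, 1 ≤ m ∧ Q^[m] = id) ∧
        (∀ s x, Q (ρ s x) = ρ s (Q x)) ∧ EqOnCrit E h G (Q ∘ ρ t)

variable [FiniteDimensional ℝ E] [IsManifold 𝓘(ℝ, E) ∞ P]

/-- `G` is a time map of the flow of `Y + Z`, where `Y` is a `C^∞` field with `dh(Y) ≥ 0` which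
vanishes at the critical points of the `C^∞` function `h`, and the flow of the `C^∞` field `Z` is
`u ↦ ρ_{u t}`, for a torus action `ρ` with `h ∘ ρ_s = h`. -/
def TorusFlow (E : Type u) [NormedAddCommGroup E] [NormedSpace ℝ E] [FiniteDimensional ℝ E]
    {P : Type v} [TopologicalSpace P] [ChartedSpace E P] [IsManifold 𝓘(ℝ, E) ∞ P]
    [T2Space P] [CompactSpace P] (G : P → P) : Prop :=
  ∃ h : P → ℝ, ContMDiff 𝓘(ℝ, E) 𝓘(ℝ, ℝ) ∞ h ∧
    ∃ (k : ℕ) (ρ : (Fin k → ℝ) → P → P), TorusAction E k ρ ∧ (∀ t x, h (ρ t x) = h x) ∧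
      ∃ Y ∈ SmoothFields E P, ∃ Z ∈ SmoothFields E P,
        (∀ x, (0 : ℝ) ≤ mfderiv 𝓘(ℝ, E) 𝓘(ℝ, ℝ) h x (Y x)) ∧ (∀ x, Crit E h x → Y x = 0) ∧
        (∃ t : Fin k → ℝ, ∀ x, IsMIntegralCurve (I := 𝓘(ℝ, E)) (fun u : ℝ => ρ (u • t) x) Z) ∧
        ∃ (φ : Flow ℝ P) (T : ℝ), IsFlowOf (Y + Z) φ ∧ ∀ x, G x = φ T x

end Pool.Agent.X84.Tor
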